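import Pool.Agent.Helper1.RK.StB

set_option autoImplicit false

namespace Pool.Agent.Helper34.RK

open Pool.Agent.Helper1.RK

theorem pINQ (_h1 : StORD) (h2 : StREG) (h3 : StDER) (h4 : StLCD) (h5 : StPL) (h6 : StIOT)
    (h7 : StDGF) (h8 : StDGR) (h9 : StFIB) (h10 : StFNI) : StINQ := by
  classical
  intro L _ _ _ ι hι r dl lam u D hr hC hNI φ U h T hmem hU hh hbad
  obtain ⟨Dt, hDt⟩ := (h3 L).1 0 1
  set s : Fin r → RatFunc L := fun k => φ k RatFunc.X with hs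
  -- nonconstant
  have hX : ¬ Cst (RatFunc.X : RatFunc L) := by
    rintro ⟨a, ha⟩
    have e0 := ((h2 L 0).2.2.2.2.2.1).2
    have e1 := ((h2 L 1).2.2.2.2.2.1).2
    rw [ha] at e0 e1
    rw [((h2 L 0).2.2.2.2.1 a).2] at e0
    rw [((h2 L 1).2.2.2.2.1 a).2] at e1
    exact zero_ne_one (e0.symm.trans e1)
  have hsc : ∀ k, ¬ Cst (s k) := fun k hk =>
    hX ((((h6 L).2.2.2.2.2 (φ k)).2 RatFunc.X).1 hk)
  have hover : ∀ k, Over (dl k) (D k RatFunc.X) (D k) := fun k => ⟨fun a => hC.lift k a, rfl⟩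
  -- fibres
  have hfib : ∀ k τ, ∃ B : Finset L, τ ∈ T k → ((∀ p, p ∈ B ↔ (Reg p (s k) ∧ ev p (s k) = τ)) ∧
      ∑ p ∈ B, ord p (s k - RatFunc.C τ) = (dg (s k) : ℤ)) := by
    intro k τ
    by_cases hτ : τ ∈ T k
    · obtain ⟨B, hB⟩ := h7 L ι hι (s k) τ (hsc k)
        (h10 L ι hι r dl lam u D hr hC hNI k (φ k) (U k) (h k) τ (hmem k) (hU k) (hh k)
          (hbad k τ hτ))
      exact ⟨B, fun _ => hB⟩
    · exact ⟨∅, fun h => absurd h hτ⟩
  choose Bf hBf using hfib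
  set B : Fin r → Finset L := fun k => (T k).biUnion (Bf k) with hB
  have hF : ∀ k, ∀ τ ∈ T k, ∀ p ∈ Bf k τ,
      ¬ Reg p (D k RatFunc.X) ∧ (∀ l, l ≠ k → Reg p (D l RatFunc.X)) ∧
      (BadP (h k) τ → ord p (s k - RatFunc.C τ) ≤ - ord p (D k RatFunc.X)) ∧
      (BadH (dl k) (lam k) (h k) (U k) τ →
        ord p (s k - RatFunc.C τ) ≤ 2 * (- ord p (D k RatFunc.X)) ∧
        ord p (s k - RatFunc.C τ) ≤ 2 * ord p (Dt (s k))) := by
    intro k τ hτ p hp
    have hp' := ((hBf k τ hτ).1 p).1 hp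
    exact h9 L Dt hDt r dl lam u D hr hC k (φ k) (U k) (h k) τ p (hmem k) (hU k) (hh k)
      (hbad k τ hτ) hp'.1 hp'.2
  have hBmem : ∀ k, ∀ p ∈ B k, ¬ Reg p (D k RatFunc.X) ∧ (∀ l, l ≠ k → Reg p (D l RatFunc.X)) ∧
      Reg p (s k) := by
    intro k p hp
    obtain ⟨τ, hτ, hpτ⟩ := Finset.mem_biUnion.1 hp
    have h' := hF k τ hτ p hpτ
    exact ⟨h'.1, h'.2.1, (((hBf k τ hτ).1 p).1 hpτ).1⟩
  have hneg : ∀ k, ∀ p ∈ B k, 0 < - ord p (D k RatFunc.X) := by
    intro k p hp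
    have h' := ((h2 L p).2.2.1 _).1 (hBmem k p hp).1
    linarith [h'.2]
  have hGnn : ∀ k, ∀ p ∈ B k, 0 ≤ ord p (Dt (s k)) := by
    intro k p hp
    have h' := (h4 L p Dt hDt).2.2 (s k) (hsc k) (hBmem k p hp).2.2
    linarith [h'.1, h'.2]
  have hone : ∀ k, ∀ τ ∈ T k, ∀ p ∈ Bf k τ, 1 ≤ ord p (s k - RatFunc.C τ) := by
    intro k τ hτ p hp
    have hp' := ((hBf k τ hτ).1 p).1 hp
    have h' := (h4 L p Dt hDt).2.2 (s k) (hsc k) hp'.1
    rw [hp'.2] at h'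
    exact h'.1
  have hdisT : ∀ k, ((T k : Finset L) : Set L).PairwiseDisjoint (Bf k) := by
    intro k τ hτ τ' hτ' hne
    rw [Function.onFun, Finset.disjoint_left]
    intro p hp hp'
    exact hne ((((hBf k τ hτ).1 p).1 hp).2.symm.trans (((hBf k τ' hτ').1 p).1 hp').2)
  have hdisB : (((Finset.univ : Finset (Fin r)) : Finset (Fin r)) : Set (Fin r)).PairwiseDisjoint
      B := by
    intro k _ l _ hne
    rw [Function.onFun, Finset.disjoint_left]
    intro p hp hp'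
    exact (hBmem k p hp).1 ((hBmem l p hp').2.1 k hne)
  have hother : ∀ j k, k ≠ j → ∀ p ∈ B k, Reg p (s j) ∧
      ord p (Dt (s j)) = - ord p (D k RatFunc.X) := by
    intro j k hkj p hp
    have h' := (h5 L p (dl k) (D k RatFunc.X) (D k) Dt (s j) (hover k) hDt (hmem j k hkj)
      (hsc j)).2 (hBmem k p hp).1
    exact ⟨h'.1, h'.2.2⟩
  refine ⟨fun k => ∑ p ∈ B k, - ord p (D k RatFunc.X), fun k => ∑ p ∈ B k, ord p (Dt (s k)),
    ?_, ?_, ?_, ?_, ?_⟩
  · intro j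
    have h' := h8 L Dt hDt (s j) (Finset.univ.biUnion B) (hsc j) (by
      intro p hp
      obtain ⟨k, -, hpk⟩ := Finset.mem_biUnion.1 hp
      by_cases hkj : k = j
      · subst hkj
        exact (hBmem k p hpk).2.2
      · exact (hother j k hkj p hpk).1)
    rw [Finset.sum_biUnion hdisB] at h'
    have e1 : ∑ k, ∑ p ∈ B k, ord p (Dt (s j)) =
        ∑ k ∈ Finset.univ.erase j, ∑ p ∈ B k, - ord p (D k RatFunc.X)
          + ∑ p ∈ B j, ord p (Dt (s j)) := by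
      rw [← Finset.sum_erase_add _ _ (Finset.mem_univ j)]
      congr 1
      apply Finset.sum_congr rfl
      intro k hk
      apply Finset.sum_congr rfl
      intro p hp
      exact (hother j k (Finset.ne_of_mem_erase hk) p hp).2
    rw [e1] at h'
    exact h'
  · intro k
    exact Finset.sum_nonneg (hGnn k)
  · intro k
    show ((T k).card : ℤ) * dg (s k) ≤ 2 * ∑ p ∈ B k, - ord p (D k RatFunc.X)
    rw [Finset.sum_biUnion (hdisT k), Finset.mul_sum, ← nsmul_eq_mul]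
    apply Finset.card_nsmul_le_sum
    intro τ hτ
    rw [← (hBf k τ hτ).2, Finset.mul_sum]
    apply Finset.sum_le_sum
    intro p hp
    have h' := hF k τ hτ p hp
    rcases hbad k τ hτ with hb | hb
    · have := h'.2.2.1 hb
      have := hone k τ hτ p hp
      linarith
    · exact (h'.2.2.2 hb).1
  · rintro k ⟨τ, hτ, hb⟩
    show (dg (s k) : ℤ) ≤ ∑ p ∈ B k, - ord p (D k RatFunc.X)
    have h1 : ∑ p ∈ Bf k τ, - ord p (D k RatFunc.X) ≤ ∑ p ∈ B k, - ord p (D k RatFunc.X) := by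
      apply Finset.sum_le_sum_of_subset_of_nonneg
      · intro p hp
        exact Finset.mem_biUnion.2 ⟨τ, hτ, hp⟩
      · intro p hp _
        exact (hneg k p hp).le
    refine le_trans ?_ h1
    rw [← (hBf k τ hτ).2]
    apply Finset.sum_le_sum
    intro p hp
    exact (hF k τ hτ p hp).2.2.1 hb
  · intro k hall
    show ((T k).card : ℤ) * dg (s k) ≤ 2 * ∑ p ∈ B k, ord p (Dt (s k))
    rw [Finset.sum_biUnion (hdisT k), Finset.mul_sum, ← nsmul_eq_mul]
    apply Finset.card_nsmul_le_sum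
    intro τ hτ
    rw [← (hBf k τ hτ).2, Finset.mul_sum]
    apply Finset.sum_le_sum
    intro p hp
    exact ((hF k τ hτ p hp).2.2.2 (hall τ hτ)).2

end Pool.Agent.Helper34.RK
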