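import Pool.Agent.Helper43.RK.St

set_option autoImplicit false

namespace Pool.Agent.Helper34.RK

open Pool.Agent.Helper43.RK

section grp

variable {G : Type} [Group G]

private lemma cj2 {n x y : G} (h : n * n = 1) : n * (x * y) * n = (n * x * n) * (n * y * n) := by
  calc n * (x * y) * n = n * x * 1 * y * n := by group
    _ = n * x * (n * n) * y * n := by rw [h]
    _ = (n * x * n) * (n * y * n) := by group

private lemma cj4 {n x y z t : G} (h : n * n = 1) :
    n * (x * y * z * t) * n = (n * x * n) * (n * y * n) * (n * z * n) * (n * t * n) := by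
  rw [cj2 h, cj2 h, cj2 h]

private lemma cjS {n S A : G} (h : n * n = 1) :
    n * (S⁻¹ * A * S) * n = (n * S * n)⁻¹ * (n * A * n) * (n * S * n) := by
  have hi : n⁻¹ = n := inv_eq_of_mul_eq_one_left h
  calc n * (S⁻¹ * A * S) * n = n⁻¹ * S⁻¹ * A * 1 * S * n := by rw [hi]; group
    _ = n⁻¹ * S⁻¹ * A * (n * n) * S * n := by rw [h]
    _ = (n * S * n)⁻¹ * (n * A * n) * (n * S * n) := by group

private lemma cjn {n x y : G} (h : n * n = 1) (hx : n * x * n = y) : n * y * n = x := by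
  rw [← hx]
  calc n * (n * x * n) * n = (n * n) * x * (n * n) := by group
    _ = x := by rw [h]; group

private lemma cjQ4 {Q x y z t : G} :
    Q * (x * y * z * t) * Q⁻¹ = (Q * x * Q⁻¹) * (Q * y * Q⁻¹) * (Q * z * Q⁻¹) * (Q * t * Q⁻¹) := by
  group

private lemma comm_of_cj {Q x : G} (h : Q * x * Q⁻¹ = x) : x * Q = Q * x := by
  calc x * Q = (Q * x * Q⁻¹) * Q := by rw [h]
    _ = Q * x := by group

private lemma st1 {a β τ B : G} (ha : a * a = 1) (hβ : β * β = 1) (hτ : τ * τ = 1)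
    (hc : τ * a = a * τ) (hB : τ * β * τ = B) : (a * β)⁻¹ * τ * (a * β) = β * B * τ := by
  have hβi : β⁻¹ = β := inv_eq_of_mul_eq_one_left hβ
  calc (a * β)⁻¹ * τ * (a * β) = β⁻¹ * a⁻¹ * (τ * a) * β := by group
    _ = β⁻¹ * τ * β := by rw [hc]; group
    _ = β * τ * β * 1 := by rw [hβi, mul_one]
    _ = β * τ * β * (τ * τ) := by rw [hτ]
    _ = β * (τ * β * τ) * τ := by group
    _ = β * B * τ := by rw [hB]

private lemma st2 {p τ A : G} (hp : p * p = 1) (hτ : τ * τ = 1) (h : p * τ * p = A * τ) :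
    τ * p * τ = p * A := by
  calc τ * p * τ = 1 * τ * p * τ := by group
    _ = (p * p) * τ * p * τ := by rw [hp]
    _ = p * (p * τ * p) * τ := by group
    _ = p * (A * τ) * τ := by rw [h]
    _ = p * A * (τ * τ) := by group
    _ = p * A := by rw [hτ, mul_one]

private lemma st3 {a b a' b' : G} (ha : a * a = 1) (hb : b * b = 1) {τ : G} (hτ : τ * τ = 1)
    (h : a * b * a * b = τ) : b * a * b * a = τ := by
  have h1 : (b * a * b * a) * (a * b * a * b) = 1 := by
    calc (b * a * b * a) * (a * b * a * b) = b * a * b * (a * a) * b * a * b := by group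
      _ = b * a * (b * b) * a * b := by rw [ha]; group
      _ = b * (a * a) * b := by rw [hb]; group
      _ = 1 := by rw [ha, mul_one, hb]
  rw [h] at h1
  calc b * a * b * a = (b * a * b * a) * (τ * τ) := by rw [hτ, mul_one]
    _ = ((b * a * b * a) * τ) * τ := by group
    _ = τ := by rw [h1, one_mul]

end grp

variable {R : Type} [CommRing R] {G : Type} [Group G] (D : Dt R G)

private lemma ed : (D.y : R) * (D.yb : R) * (D.e : R) = 1 := by
  have : ((D.y * D.yb : Rˣ) : R) * ((D.e : Rˣ) : R) = 1 := by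
    rw [Dt.e, Units.mul_inv]
  simpa [Units.val_mul] using this

private lemma bar_pow (j : ℕ) : D.bar ((D.e : R) ^ j) = (D.e : R) ^ j := by
  rw [map_pow, D.bar_e]

private lemma qpow_a (j : ℕ) (r : R) :
    D.Q ^ j * D.a r * (D.Q ^ j)⁻¹ = D.a ((D.e : R) ^ j * r) := by
  induction j with
  | zero => simp
  | succ j ih =>
    have : D.Q ^ (j + 1) * D.a r * (D.Q ^ (j + 1))⁻¹ =
        D.Q * (D.Q ^ j * D.a r * (D.Q ^ j)⁻¹) * D.Q⁻¹ := by
      rw [pow_succ']; group
    rw [this, ih, D.aQinv]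
    congr 1
    ring

private lemma qpow_b (j : ℕ) (r : R) :
    D.Q ^ j * D.b ((D.e : R) ^ j * r) * (D.Q ^ j)⁻¹ = D.b r := by
  induction j generalizing r with
  | zero => simp
  | succ j ih =>
    have h1 : D.Q ^ (j + 1) * D.b ((D.e : R) ^ (j + 1) * r) * (D.Q ^ (j + 1))⁻¹ =
        D.Q * (D.Q ^ j * D.b ((D.e : R) ^ j * ((D.e : R) * r)) * (D.Q ^ j)⁻¹) * D.Q⁻¹ := by
      have : (D.e : R) ^ (j + 1) * r = (D.e : R) ^ j * ((D.e : R) * r) := by ring
      rw [this, pow_succ']; group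
    rw [h1, ih, D.bQinv]
    congr 1
    have := ed D
    linear_combination r * this

theorem hRIS : StRIS := by
  intro hRS1 hRN hRT R _ _ G _ D hz hGe j hGl
  obtain ⟨hn2, hnb, hnp, hn1, hnβ, hnS, hns, hne⟩ := hRN R G D hz
  obtain ⟨-, hS2, hS3, -⟩ := hRS1 R G D
  obtain ⟨l, hl⟩ : ∃ l : R, l = (D.e : R) ^ j := ⟨_, rfl⟩
  obtain ⟨m, hm⟩ : ∃ m : R, m = (D.e : R) ^ (j + 1) := ⟨_, rfl⟩
  rw [← hl] at hGl
  rw [← hm]
  have hml : m = (D.e : R) * l := by rw [hm, hl]; ring
  have hbl : D.bar l = l := by rw [hl]; exact bar_pow D j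
  have hbm : D.bar m = m := by rw [hm]; exact bar_pow D (j + 1)
  obtain ⟨hl2, hla, -, hlb, -, -, -, -⟩ := hRT hRN R G D hz l hbl
  obtain ⟨hm2, hma, -, hmb, -, -, hmp, hmT⟩ := hRT hRN R G D hz m hbm
  -- ex
  have hex : D.n * D.a (m * (D.y : R)) * D.n = D.b m := by
    have h1 : D.a (m * (D.y : R)) = D.a ((D.s : R) * l) * D.a l := by
      rw [← D.a_add]
      congr 1
      rw [D.s_eq, hml]
      have := D.two l
      linear_combination -this
    have h2 : D.n * D.a ((D.s : R) * l) * D.n = D.b m * D.tau l := by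
      rw [← D.aS, cjS hn2, hnS]
      have h3 : D.tau l * D.b ((D.y⁻¹ : Rˣ) : R) * D.tau l =
          D.b (((D.y⁻¹ : Rˣ) : R) + m) := by
        rw [hGl.tb, D.bar_yinv, D.inv_sum, hml, mul_comm l]
      have h4 := st1 (D.aa 1) (D.bb ((D.y⁻¹ : Rˣ) : R)) hl2 hla h3
      have h5 : D.n * D.a l * D.n = D.tau l := rfl
      rw [h5, h4, ← D.b_add, ← add_assoc, D.two, zero_add]
    have h6 : D.n * D.a l * D.n = D.tau l := rfl
    rw [h1, cj2 hn2, h2, h6, mul_assoc, hl2, mul_one]
  obtain ⟨hE1, -⟩ := hmT hex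
  -- commutation with Q
  have hQ : D.tau m * D.Q = D.Q * D.tau m := by
    apply comm_of_cj
    have h1 : D.Q * (D.a 1 * D.b m * D.a 1 * D.b m) * D.Q⁻¹ =
        D.a (D.e : R) * D.b l * D.a (D.e : R) * D.b l := by
      rw [cjQ4, D.aQinv, D.bQinv, mul_one]
      have : (D.y : R) * (D.yb : R) * m = l := by
        rw [hml]
        have := ed D
        linear_combination l * this
      rw [this]
    have h2 : D.n * (D.a (D.e : R) * D.b l * D.a (D.e : R) * D.b l) * D.n = D.a m := by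
      have h3 : D.n * D.b l * D.n = D.a (l * (D.y : R)) := cjn hn2 hGl.ex
      have h4 : D.n * D.a (D.e : R) * D.n = D.tau (D.e : R) := rfl
      rw [cj4 hn2, h3, h4, hGe.ta, ← D.a_add]
      congr 1
      rw [map_mul, hbl, D.bary, hml]
      have h5 := D.hy
      have h6 := D.two (l * (D.y : R))
      linear_combination (D.e : R) * l * h5 + h6
    have h7 := cjn hn2 h2
    have h8 : D.n * D.a m * D.n = D.tau m := rfl
    rw [h8] at h7
    rw [← hE1, h1, ← h7, hE1]
  have hQj : ∀ i : ℕ, D.Q ^ i * D.tau m * (D.Q ^ i)⁻¹ = D.tau m := by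
    intro i
    have hc : Commute (D.Q ^ i) (D.tau m) := (Commute.pow_left (show Commute D.Q (D.tau m) from hQ.symm) i)
    rw [hc.eq]
    group
  have hF : D.a m * D.b 1 * D.a m * D.b 1 = D.tau m := by
    have h1 := hQj (j + 1)
    rw [← hE1, cjQ4, qpow_a] at h1
    have h2 : D.Q ^ (j + 1) * D.b m * (D.Q ^ (j + 1))⁻¹ = D.b 1 := by
      have := qpow_b D (j + 1) 1
      rw [mul_one, ← hm] at this
      exact this
    rw [h2, mul_one, ← hm] at h1
    rw [h1, hE1]
  have hty : D.tau m * D.a (D.y : R) * D.tau m = D.a ((D.y : R) + m) := by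
    rw [hF] at hmp
    rw [st2 (D.aa (D.y : R)) hm2 hmp, D.a_add]
  have ht1 : D.tau m * D.a 1 * D.tau m = D.a 1 := by
    rw [hma, mul_assoc, hm2, mul_one]
  -- the additive subgroup
  obtain ⟨T, hT⟩ : ∃ T : AddSubgroup R, ∀ r, r ∈ T ↔
      D.tau m * D.a r * D.tau m = D.a (r + m * (r + D.bar r)) := by
    refine ⟨{ carrier := {r | D.tau m * D.a r * D.tau m = D.a (r + m * (r + D.bar r))}
              zero_mem' := ?_
              add_mem' := ?_
              neg_mem' := ?_ }, fun r => Iff.rfl⟩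
    · intro r r' h h'
      change D.tau m * D.a (r + r') * D.tau m = D.a (r + r' + m * (r + r' + D.bar (r + r')))
      have h1 : D.tau m * D.a r * D.tau m = D.a (r + m * (r + D.bar r)) := h
      have h2 : D.tau m * D.a r' * D.tau m = D.a (r' + m * (r' + D.bar r')) := h'
      rw [D.a_add, cj2 hm2, h1, h2, ← D.a_add, map_add]
      congr 1
      ring
    · change D.tau m * D.a 0 * D.tau m = D.a (0 + m * (0 + D.bar 0))
      rw [map_zero, add_zero, mul_zero, add_zero, D.a0, mul_one, hm2]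
    · intro r h
      have : -r = r := by
        have := D.two r
        linear_combination -this
      rw [this]
      exact h
  have hTe : ∀ r, r ∈ T → (D.e : R) * r ∈ T := by
    intro r hr
    rw [hT] at hr ⊢
    have h1 : D.tau m * D.a ((D.e : R) * r) * D.tau m =
        D.Q * (D.tau m * D.a r * D.tau m) * D.Q⁻¹ := by
      rw [← D.aQinv]
      have hQi : D.Q⁻¹ * D.tau m = D.tau m * D.Q⁻¹ := by
        calc D.Q⁻¹ * D.tau m = D.Q⁻¹ * (D.tau m * D.Q) * D.Q⁻¹ := by group
          _ = D.Q⁻¹ * (D.Q * D.tau m) * D.Q⁻¹ := by rw [hQ]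
          _ = D.tau m * D.Q⁻¹ := by group
      calc D.tau m * (D.Q * D.a r * D.Q⁻¹) * D.tau m
          = (D.tau m * D.Q) * D.a r * (D.Q⁻¹ * D.tau m) := by group
        _ = (D.Q * D.tau m) * D.a r * (D.tau m * D.Q⁻¹) := by rw [hQ, hQi]
        _ = D.Q * (D.tau m * D.a r * D.tau m) * D.Q⁻¹ := by group
    rw [h1, hr, D.aQinv, map_mul, D.bar_e]
    congr 1
    ring
  have hT1 : (1 : R) ∈ T := by
    rw [hT, ht1, map_one]
    congr 1
    have := D.two (1 : R)
    linear_combination -m * this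
  have hTy : (D.y : R) ∈ T := by
    rw [hT, hty, D.bary, D.hy, mul_one]
  have hTp : ∀ r, r ∈ T → ∀ i : ℕ, (D.e : R) ^ i * r ∈ T := by
    intro r hr i
    induction i with
    | zero => simpa using hr
    | succ i ih =>
      have := hTe _ ih
      have h2 : (D.e : R) ^ (i + 1) * r = (D.e : R) * ((D.e : R) ^ i * r) := by ring
      rw [h2]
      exact this
  have hfix : ∀ α, D.bar α = α → α ∈ T := by
    refine hS2 T (fun i => ?_)
    have := hTp 1 hT1 i
    rwa [mul_one] at this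
  have hfixy : ∀ α, D.bar α = α → α * (D.y : R) ∈ T := by
    obtain ⟨T', hT'⟩ : ∃ T' : AddSubgroup R, ∀ r, r ∈ T' ↔ r * (D.y : R) ∈ T :=
      ⟨T.comap (AddMonoidHom.mulRight (D.y : R)), fun r => Iff.rfl⟩
    intro α hα
    exact (hT' α).1 (hS2 T' (fun i => (hT' _).2 (hTp _ hTy i)) α hα)
  have hta : ∀ r, D.tau m * D.a r * D.tau m = D.a (r + m * (r + D.bar r)) := by
    intro r
    rw [← hT]
    obtain ⟨α, β, hα, hβ, hr⟩ := hS3 r
    rw [hr]
    exact T.add_mem (hfix α hα) (hfixy β hβ)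
  have hw : D.w * D.tau m * D.w = D.tau m := by
    have h1 : D.w * (D.a 1 * D.b m * D.a 1 * D.b m) * D.w =
        D.b 1 * D.a m * D.b 1 * D.a m := by
      rw [cj4 D.ww, D.aw, D.bw]
    rw [hE1] at h1
    rw [h1]
    exact st3 (a' := 1) (b' := 1) (D.aa m) (D.bb 1) hm2 hF
  refine ⟨hex, hta, ?_, hQ⟩
  intro r
  have h1 : D.tau m * D.b r * D.tau m = D.w * (D.tau m * D.a r * D.tau m) * D.w := by
    rw [cj2 D.ww, cj2 D.ww, hw, D.aw]
  rw [h1, hta, D.aw]

end Pool.Agent.Helper34.RK
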